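import Pool.Agent.helper88.RL.SpecL

/-! Row rl:Z4: the number of roots modulo a prime power. -/

set_option autoImplicit false

namespace Pool.Agent.RL

open Finset Pool.Agent.helper3.FT Pool.Agent.T6 Pool.Agent.RF

theorem Z4_root (p : ℤ) (hp : Prime p) (hp0 : p ≠ 0) :
    ∀ (c : ℕ) (E : ℤ), p ^ (2 * c - 1) ∣ E ^ 2 → p ^ c ∣ E := by
  intro c
  induction c with
  | zero => intro E _; simp
  | succ c ih =>
    intro E h
    have h1 : p ∣ E ^ 2 := by
      refine dvd_trans (dvd_pow_self p ?_) h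
      omega
    have h2 : p ∣ E := hp.dvd_of_dvd_pow h1
    obtain ⟨E', rfl⟩ := h2
    have h3 : p ^ (2 * c - 1) ∣ E' ^ 2 := by
      rcases Nat.eq_zero_or_pos c with h0 | h0
      · subst h0
        simp
      · have e1 : 2 * (c + 1) - 1 = 2 * c - 1 + 2 := by omega
        rw [e1, pow_add, mul_pow, mul_comm (p ^ 2)] at h
        exact (mul_dvd_mul_iff_right (pow_ne_zero 2 hp0)).1 h
    rw [pow_succ, mul_comm]
    exact mul_dvd_mul_left p (ih E' h3)

theorem Z4_split (p : ℤ) (hp : Prime p) (c : ℕ) (x y : ℤ) (h : p ^ c ∣ x * y) (hx : ¬ p ∣ x) : p ^ c ∣ y := by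
  have h1 : IsCoprime (p ^ c) x := by
    refine IsCoprime.pow_left ?_
    exact (Prime.coprime_iff_not_dvd hp).2 hx
  exact h1.dvd_of_dvd_mul_left h

open Classical in
theorem Z4 : Z4_stmt := by
  intro p a n k hp hp5 ha hnk
  have hpZ : Prime (p : ℤ) := Nat.prime_iff_prime_int.1 hp
  have hp0 : (p : ℤ) ≠ 0 := hpZ.ne_zero
  set c : ℕ := (a + 1) / 2 with hc
  have hca : a - c = a / 2 := by omega
  have hca' : c ≤ a := by omega
  have hc1 : 1 ≤ c := by omega
  set S := (range (p ^ a)).filter (fun r : ℕ => ¬ (p : ℤ) ∣ k * r - n ∧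
      (p : ℤ) ^ a ∣ (((n + k) * r - k) * (n * r + n - k)) ^ 2) with hS
  have hboth : ¬ ((p : ℤ) ∣ n ∧ (p : ℤ) ∣ k) := by
    rintro ⟨h1, h2⟩
    obtain ⟨u, v, huv⟩ := hnk
    have h3 : (p : ℤ) ∣ 1 := by
      rw [← huv]
      exact dvd_add (Dvd.dvd.mul_left h1 u) (Dvd.dvd.mul_left h2 v)
    exact hpZ.not_dvd_one h3
  have hpc1 : (p : ℤ) ∣ (p : ℤ) ^ c := dvd_pow_self _ (by omega)
  -- every element is of one of two types
  have htype : ∀ r ∈ S, (p : ℤ) ^ c ∣ (n + k) * r - k ∨ (p : ℤ) ^ c ∣ n * r + n - k := by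
    intro r hr
    rw [hS, Finset.mem_filter] at hr
    have hE : (p : ℤ) ^ c ∣ ((n + k) * (r : ℤ) - k) * (n * r + n - k) :=
      Z4_root p hpZ hp0 c _ (dvd_trans (pow_dvd_pow _ (by omega)) hr.2.2)
    by_cases h1 : (p : ℤ) ∣ (n + k) * (r : ℤ) - k
    · left
      refine Z4_split p hpZ c (n * (r : ℤ) + n - k) _ (by rw [mul_comm]; exact hE) ?_
      intro h2
      have h3 : (p : ℤ) ∣ n ^ 2 + n * k - k ^ 2 := by
        have e : n ^ 2 + n * k - k ^ 2 = (n + k) * (n * (r : ℤ) + n - k) - n * ((n + k) * (r : ℤ) - k) := by ring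
        rw [e]
        exact dvd_sub (Dvd.dvd.mul_left h2 _) (Dvd.dvd.mul_left h1 _)
      have h4 : (p : ℤ) ∣ (k * (r : ℤ) - n) ^ 2 := by
        have e : (k * (r : ℤ) - n) ^ 2 = ((n + k) * (r : ℤ) - k) * (n * r + n - k) - (n ^ 2 + n * k - k ^ 2) * ((r : ℤ) ^ 2 + r - 1) := by ring
        rw [e]
        exact dvd_sub (Dvd.dvd.mul_right h1 _) (Dvd.dvd.mul_right h3 _)
      exact hr.2.1 (hpZ.dvd_of_dvd_pow h4)
    · right
      exact Z4_split p hpZ c _ _ hE h1
  have hone : ∀ r r' : ℤ, (p : ℤ) ^ c ∣ (n + k) * r - k → (p : ℤ) ^ c ∣ (n + k) * r' - k → (p : ℤ) ^ c ∣ r - r' := by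
    intro r r' h1 h2
    refine Z4_split p hpZ c (n + k) _ ?_ ?_
    · have e : (n + k) * (r - r') = ((n + k) * r - k) - ((n + k) * r' - k) := by ring
      rw [e]; exact dvd_sub h1 h2
    · intro h3
      have h4 : (p : ℤ) ∣ k := by
        have e : k = (n + k) * r - ((n + k) * r - k) := by ring
        rw [e]; exact dvd_sub (Dvd.dvd.mul_right h3 _) (hpc1.trans h1)
      have h5 : (p : ℤ) ∣ n := by
        have e : n = (n + k) - k := by ring
        rw [e]; exact dvd_sub h3 h4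
      exact hboth ⟨h5, h4⟩
  have htwo : ∀ r r' : ℤ, (p : ℤ) ^ c ∣ n * r + n - k → (p : ℤ) ^ c ∣ n * r' + n - k → (p : ℤ) ^ c ∣ r - r' := by
    intro r r' h1 h2
    refine Z4_split p hpZ c n _ ?_ ?_
    · have e : n * (r - r') = (n * r + n - k) - (n * r' + n - k) := by ring
      rw [e]; exact dvd_sub h1 h2
    · intro h3
      have h4 : (p : ℤ) ∣ k := by
        have e : k = n * (r + 1) - (n * r + n - k) := by ring
        rw [e]; exact dvd_sub (Dvd.dvd.mul_right h3 _) (hpc1.trans h1)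
      exact hboth ⟨h3, h4⟩
  -- at most two classes modulo p ^ c
  have himg : (S.image (fun r => r % p ^ c)).card ≤ 2 := by
    by_contra hcon
    push Not at hcon
    obtain ⟨x, hx, y, hy, z, hz, hxy, hxz, hyz⟩ := Finset.two_lt_card.1 hcon
    rw [Finset.mem_image] at hx hy hz
    obtain ⟨r1, hr1, rfl⟩ := hx
    obtain ⟨r2, hr2, rfl⟩ := hy
    obtain ⟨r3, hr3, rfl⟩ := hz
    have hmod : ∀ r r' : ℕ, r % p ^ c ≠ r' % p ^ c → ¬ (p : ℤ) ^ c ∣ (r : ℤ) - r' := by
      intro r r' hne h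
      apply hne
      have h1 : (r' : ℤ) ≡ r [ZMOD ((p ^ c : ℕ) : ℤ)] := (Int.modEq_iff_dvd).2 (by push_cast; exact h)
      exact (Int.natCast_modEq_iff.1 h1).symm
    rcases htype r1 hr1 with a1 | a1
    · rcases htype r2 hr2 with a2 | a2
      · exact hmod _ _ hxy (hone _ _ a1 a2)
      · rcases htype r3 hr3 with a3 | a3
        · exact hmod _ _ hxz (hone _ _ a1 a3)
        · exact hmod _ _ hyz (htwo _ _ a2 a3)
    · rcases htype r2 hr2 with a2 | a2
      · rcases htype r3 hr3 with a3 | a3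
        · exact hmod _ _ hyz (hone _ _ a2 a3)
        · exact hmod _ _ hxz (htwo _ _ a1 a3)
      · exact hmod _ _ hxy (htwo _ _ a1 a2)
  have hfib : ∀ t ∈ S.image (fun r => r % p ^ c), (S.filter (fun r => r % p ^ c = t)).card ≤ p ^ (a / 2) := by
    intro t _
    have hpc : 0 < p ^ c := pow_pos hp.pos c
    rw [← Finset.card_range (p ^ (a / 2))]
    refine Finset.card_le_card_of_injOn (fun r => r / p ^ c) ?_ ?_
    · intro r hr
      rw [Finset.mem_coe, Finset.mem_filter, hS, Finset.mem_filter, Finset.mem_range] at hr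
      rw [Finset.mem_coe, Finset.mem_range, ← hca, Nat.div_lt_iff_lt_mul hpc, ← pow_add]
      have e : a - c + c = a := by omega
      rw [e]
      exact hr.1.1
    · intro r hr r' hr' h
      rw [Finset.mem_coe, Finset.mem_filter] at hr hr'
      simp only at h
      rw [← Nat.div_add_mod r (p ^ c), ← Nat.div_add_mod r' (p ^ c), h, hr.2, hr'.2]
  have hfin := Finset.card_le_mul_card_image (f := fun r => r % p ^ c) S (p ^ (a / 2)) hfib
  have hS2 : S.card ≤ 2 * p ^ (a / 2) := by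
    calc S.card ≤ p ^ (a / 2) * (S.image (fun r => r % p ^ c)).card := hfin
      _ ≤ p ^ (a / 2) * 2 := Nat.mul_le_mul_left _ himg
      _ = 2 * p ^ (a / 2) := Nat.mul_comm _ _
  refine le_trans ?_ hS2
  refine (Finset.card_le_card ?_).trans (Finset.card_image_le (s := S) (f := fun r : ℕ => (r : ℤ)))
  intro x hx
  rw [Finset.mem_filter] at hx
  obtain ⟨hx1, hx2⟩ := hx
  simp only [Finset.bind_def, Finset.mem_sup, Finset.pure_def, Finset.mem_singleton] at hx1
  obtain ⟨r, hr, rfl⟩ := hx1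
  exact Finset.mem_image.2 ⟨r, by rw [hS, Finset.mem_filter]; exact ⟨hr, hx2⟩, rfl⟩

end Pool.Agent.RL
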